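import Pool.Agent.W548.MQ.Stm

/-! `1 + x` is not a unit times a square in the coordinate ring of the circle. -/

namespace W824.MQ

open Polynomial W548.MQ

theorem P_monic : (W548.MQ.P).Monic := by
  unfold W548.MQ.P
  exact monic_X_pow_sub_C _ (by norm_num)

theorem P_natDegree : (W548.MQ.P).natDegree = 2 := by
  unfold W548.MQ.P
  exact natDegree_X_pow_sub_C

theorem of_inj : Function.Injective (AdjoinRoot.of W548.MQ.P) := by
  apply AdjoinRoot.of.injective_of_degree_ne_zero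
  rw [degree_eq_natDegree P_monic.ne_zero, P_natDegree]
  decide

theorem y_sq : (AdjoinRoot.root W548.MQ.P) ^ 2 = AdjoinRoot.of W548.MQ.P (1 - X ^ 2) := by
  have h : AdjoinRoot.mk W548.MQ.P W548.MQ.P = 0 := AdjoinRoot.mk_self
  have h' : (AdjoinRoot.root W548.MQ.P) ^ 2 - AdjoinRoot.of W548.MQ.P (1 - X ^ 2) = 0 := by
    rw [← h]
    simp only [W548.MQ.P, map_sub, map_pow, AdjoinRoot.mk_X, AdjoinRoot.mk_C, map_one]
  linear_combination h'

/-- conjugation -/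
noncomputable def conj : W548.MQ.A →+* W548.MQ.A :=
  AdjoinRoot.lift (AdjoinRoot.of W548.MQ.P) (-(AdjoinRoot.root W548.MQ.P)) (by
    have h := y_sq
    simp only [W548.MQ.P, eval₂_sub, eval₂_pow, eval₂_X, eval₂_C]
    rw [neg_sq]
    linear_combination h)

theorem conj_of (p : ℚ[X]) : conj (AdjoinRoot.of W548.MQ.P p) = AdjoinRoot.of W548.MQ.P p := by
  unfold conj
  exact AdjoinRoot.lift_of _

theorem conj_y : conj (AdjoinRoot.root W548.MQ.P) = -(AdjoinRoot.root W548.MQ.P) := by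
  unfold conj
  exact AdjoinRoot.lift_root _

theorem rep (a : W548.MQ.A) : ∃ p q : ℚ[X],
    a = AdjoinRoot.of W548.MQ.P p + AdjoinRoot.of W548.MQ.P q * AdjoinRoot.root W548.MQ.P := by
  obtain ⟨g, rfl⟩ := AdjoinRoot.mk_surjective a
  have h1 : AdjoinRoot.mk W548.MQ.P g = AdjoinRoot.mk W548.MQ.P (g %ₘ W548.MQ.P) := by
    conv_lhs => rw [← modByMonic_add_div g W548.MQ.P]
    rw [map_add, map_mul, AdjoinRoot.mk_self, zero_mul, add_zero]
  have h2 : (g %ₘ W548.MQ.P).natDegree ≤ 1 := by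
    have h3 := natDegree_modByMonic_lt g P_monic (by
      intro h
      have := P_natDegree
      rw [h] at this
      simp at this)
    rw [P_natDegree] at h3
    omega
  obtain ⟨q, p, hqp⟩ := exists_eq_X_add_C_of_natDegree_le_one h2
  refine ⟨p, q, ?_⟩
  rw [h1, hqp, map_add, map_mul, AdjoinRoot.mk_C, AdjoinRoot.mk_C, AdjoinRoot.mk_X]
  ring

theorem nrm (a : W548.MQ.A) : ∃ m : ℚ[X], a * conj a = AdjoinRoot.of W548.MQ.P m ∧
    ∀ t : ℚ, 1 ≤ t ^ 2 → 0 ≤ m.eval t := by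
  obtain ⟨p, q, rfl⟩ := rep a
  refine ⟨p ^ 2 + q ^ 2 * (X ^ 2 - 1), ?_, ?_⟩
  · rw [map_add, map_mul, conj_of, conj_of, conj_y]
    simp only [map_add, map_mul, map_pow, map_sub, map_one]
    have h := y_sq
    simp only [map_sub, map_pow, map_one] at h
    linear_combination (-(AdjoinRoot.of W548.MQ.P q) ^ 2) * h
  · intro t ht
    simp only [eval_add, eval_mul, eval_pow, eval_sub, eval_X, eval_one]
    have : 0 ≤ t ^ 2 - 1 := by linarith
    positivity

theorem t_NSQ : S_NSQ := by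
  intro u h he
  obtain ⟨mu, hu, -⟩ := nrm (u : W548.MQ.A)
  obtain ⟨mv, hv, -⟩ := nrm ((u⁻¹ : W548.MQ.Aˣ) : W548.MQ.A)
  obtain ⟨mh, hh, hpos⟩ := nrm h
  have huv : mu * mv = 1 := by
    apply of_inj
    rw [map_mul, ← hu, ← hv, map_one]
    have h1 : (u : W548.MQ.A) * ((u⁻¹ : W548.MQ.Aˣ) : W548.MQ.A) = 1 := u.mul_inv
    have h2 : conj (u : W548.MQ.A) * conj ((u⁻¹ : W548.MQ.Aˣ) : W548.MQ.A) = 1 := by
      rw [← map_mul, h1, map_one]
    linear_combination (conj (u : W548.MQ.A) * conj ((u⁻¹ : W548.MQ.Aˣ) : W548.MQ.A)) * h1 + h2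
  have hunit : IsUnit mu := IsUnit.of_mul_eq_one _ huv
  have hx : (1 + W548.MQ.x) = AdjoinRoot.of W548.MQ.P (1 + X) := by
    unfold W548.MQ.x
    rw [map_add, map_one]
  have key : (1 + X : ℚ[X]) ^ 2 = mu * mh ^ 2 := by
    apply of_inj
    rw [map_pow, map_mul, map_pow, ← hu, ← hh, ← hx]
    have h3 : conj (1 + W548.MQ.x) = 1 + W548.MQ.x := by rw [hx, conj_of]
    have h4 : conj (1 + W548.MQ.x) = conj (u : W548.MQ.A) * conj h ^ 2 := by
      rw [he, map_mul, map_pow]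
    calc (1 + W548.MQ.x) ^ 2 = (1 + W548.MQ.x) * conj (1 + W548.MQ.x) := by rw [h3]; ring
      _ = (u * h ^ 2) * (conj (u : W548.MQ.A) * conj h ^ 2) := by rw [h4, he]
      _ = _ := by ring
  obtain ⟨c, hc0, hc⟩ := Polynomial.isUnit_iff.1 hunit
  have hc0' : c ≠ 0 := hc0.ne_zero
  have hX : (1 + X : ℚ[X]) = X - C (-1) := by rw [map_neg, map_one]; ring
  have hpr : Prime (X - C (-1) : ℚ[X]) := prime_X_sub_C (-1)
  have hdvd : (X - C (-1) : ℚ[X]) ∣ mh := by
    have h5 : (X - C (-1) : ℚ[X]) ∣ mu * mh ^ 2 := by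
      rw [← key, hX]
      exact dvd_pow_self _ (by norm_num)
    have h6 : (X - C (-1) : ℚ[X]) ∣ mh ^ 2 := (hunit.dvd_mul_left).1 h5
    exact hpr.dvd_of_dvd_pow h6
  obtain ⟨m, hm⟩ := hdvd
  have h7 : mu * m ^ 2 = 1 := by
    rw [hm, hX] at key
    have h8 : (X - C (-1) : ℚ[X]) ^ 2 ≠ 0 := pow_ne_zero _ hpr.ne_zero
    apply mul_left_cancel₀ h8
    linear_combination -key
  have hmu : IsUnit m := by
    have h9 : m * (mu * m) = 1 := by linear_combination h7
    exact IsUnit.of_mul_eq_one _ h9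
  obtain ⟨μ, hμ0, hμ⟩ := Polynomial.isUnit_iff.1 hmu
  have hμ0' : μ ≠ 0 := hμ0.ne_zero
  have e1 := hpos 2 (by norm_num)
  have e2 := hpos (-2) (by norm_num)
  rw [hm, ← hμ] at e1 e2
  simp only [eval_mul, eval_sub, eval_X, eval_C] at e1 e2
  apply hμ0'
  linarith

end W824.MQ
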